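import Pool.Agent.H667R2.HKDefs
import Pool.Agent.H667R2.HK7

/-!
# Bounded Hankel operators from `ℓ^p A` to `ℓ^p`: the multiplier description fails

For every `1 < p < ∞`, `p ≠ 2`, there is an analytic `f` (even with square summable Fourier
coefficients, so an honest `H²` function) such that the Hankel operator `H_f` acts from `ℓ^p A` to
`ℓ^p` although `f` is not the Riesz projection of any multiplier of `ℓ^p`.

The symbol is a gap series `f = ∑ c_e z^{4^e}` with `c ∈ ℓ^r`, `r = min(p, p')`.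
-/

namespace Pool.Agent.Results.MP_03b314_an.HankelLpDisproof

open Pool.Agent.H667R2.HankelLp
open scoped ENNReal NNReal

theorem result (p : ℝ≥0∞) (hp1 : 1 < p) (hpt : p ≠ ∞) (hp2 : p ≠ 2) :
    ∃ f : ℤ → ℂ, (∀ n < 0, f n = 0) ∧ Summable (fun n => ‖f n‖ ^ 2) ∧ HankelActs p f ∧
      ¬ ∃ m : ℤ → ℂ, IsMultiplier p m ∧ rieszProj m = f := by
  have hp0 : p ≠ 0 := (zero_lt_one.trans hp1).ne'
  set P := p.toReal with hPdef
  have hP1 : 1 < P := by
    rw [hPdef, ← ENNReal.toReal_one]
    exact (ENNReal.toReal_lt_toReal ENNReal.one_ne_top hpt).mpr hp1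
  have hP2 : P ≠ 2 := by
    intro h
    apply hp2
    rw [← ENNReal.ofReal_toReal hpt, ← hPdef, h]
    simp
  set Q := P.conjExponent with hQdef
  have hPQ : P.HolderConjugate Q := Real.HolderConjugate.conjExponent hP1
  have hQ1 : 1 < Q := hPQ.symm.lt
  have hinv : 1 / P + 1 / Q = 1 := by
    have := hPQ.inv_add_inv_eq_one
    simpa [one_div] using this
  have hPQne : P ≠ Q := by
    intro h
    rw [← h] at hinv
    have : P ≠ 0 := by linarith
    field_simp at hinv
    apply hP2; linarith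
  -- it is enough to treat a symbol with coefficients in `ℓ^t` for all `t ≥ min P Q`
  have fin : ∀ r s : ℝ, 1 < r → r < s → r ≤ 2 → r ≤ P → r ≤ Q → ∀ c : ℕ → ℝ, (∀ e, 0 ≤ c e) →
      (∀ t, r ≤ t → Summable (fun e => c e ^ t)) →
      (∀ m : ℤ → ℂ, (∀ j : ℤ, 0 ≤ j → m j = sym c j) → ∀ K : ℝ≥0,
        ¬ ∀ u : ℤ →₀ ℂ, lpNorm p (mulPoly m u) ≤ K * lpNorm p u) →
      ∃ f : ℤ → ℂ, (∀ n < 0, f n = 0) ∧ Summable (fun n => ‖f n‖ ^ 2) ∧ HankelActs p f ∧
      ¬ ∃ m : ℤ → ℂ, IsMultiplier p m ∧ rieszProj m = f := by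
    intro r s hr hrs hr2 hrP hrQ c hc hcs hm
    refine ⟨sym c, fun n hn => sym_neg_index c n hn, ?_, ?_, ?_⟩
    · rw [← inj4.summable_iff]
      · have := hcs 2 hr2
        refine this.congr ?_
        intro e
        simp [sym_pow, sq_abs]
      · intro n hn
        rw [sym_of_notMem c n hn]; simp
    · exact hankelActs_sym hp1 hpt hPQ c
        (tsum_enorm_ne_top (by linarith) hc (hcs _ hrP))
        (tsum_enorm_ne_top (by linarith) hc (hcs _ hrQ))
    · rintro ⟨m, ⟨K, hK⟩, hmf⟩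
      refine hm m ?_ K hK
      intro j hj
      have := congrFun hmf j
      rw [← this]
      unfold rieszProj
      rw [if_pos hj]
  rcases lt_or_gt_of_ne hPQne with hlt | hgt
  · obtain ⟨c, hc, hcs, hcore⟩ := core hP1 hinv hlt
    have hP2' : P ≤ 2 := by
      by_contra hcon
      push Not at hcon
      have a1 : 1 / P < 1 / 2 := one_div_lt_one_div_of_lt (by norm_num) hcon
      have a2 : 1 / Q < 1 / 2 := one_div_lt_one_div_of_lt (by norm_num) (by linarith)
      linarith
    refine fin P Q hP1 hlt hP2' le_rfl hlt.le c hc hcs ?_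
    intro m hm K hK
    exact hcore m hm K K.2 (fun g g' => bilin hp0 hpt hPQ hK g g')
  · have hinv' : 1 / Q + 1 / P = 1 := by linarith
    obtain ⟨c, hc, hcs, hcore⟩ := core hQ1 hinv' hgt
    have hQ2' : Q ≤ 2 := by
      by_contra hcon
      push Not at hcon
      have a1 : 1 / Q < 1 / 2 := one_div_lt_one_div_of_lt (by norm_num) hcon
      have a2 : 1 / P < 1 / 2 := one_div_lt_one_div_of_lt (by norm_num) (by linarith)
      linarith
    refine fin Q P hQ1 hgt hQ2' hgt.le le_rfl c hc hcs ?_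
    intro m hm K hK
    refine hcore m hm K K.2 (fun g g' => ?_)
    have := bilin hp0 hpt hPQ hK g' g
    rw [mul_comm g g']
    calc |Lfun m (g' * g)| ≤ _ := this
      _ = K * Pool.Agent.H667R2.HK.Np Q g ^ (1 / Q) * Pool.Agent.H667R2.HK.Np P g' ^ (1 / P) := by
          rw [← hPdef]; ring

end Pool.Agent.Results.MP_03b314_an.HankelLpDisproof
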